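import Pool.Agent.Results.MP_950aae_pr.FirstOrder

/-!
# Embedded full `d`-ary trees in Bernoulli bond percolation

Extension of the starting result (binary trees, positive probability) to `d`-ary trees, to
quasi-transitive graphs, and to probability one.  Author helper750.
-/

set_option autoImplicit false

open MeasureTheory ProbabilityTheory Finset

namespace Pool.Agent.Y750.BT

open Pool.Agent.Results.MP_950aae_pr.FirstOrder

/-- The full `d`-ary tree: its vertices are the finite words in the letters `0, …, d - 1`, the root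
is the empty word, and the children of the word `w` are the words `i :: w`. -/
def bTree (d : ℕ) : SimpleGraph (List (Fin d)) := SimpleGraph.fromRel (fun w w' => ∃ i, w' = i :: w)

/-- The event `E_d`: some open cluster (connected component of the open subgraph) contains a
subgraph isomorphic to the full `d`-ary tree. -/
def treeEvent {V : Type} (d : ℕ) (G : SimpleGraph V) : Set (G.edgeSet → Bool) :=
  {ω | ∃ C : (openGraph G ω).ConnectedComponent, (bTree d).IsContained C.toSimpleGraph}

/-- The critical value `p_d = inf {p ∈ [0,1] : P_p(E_d) = 1}`. -/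
noncomputable def pcrit {V : Type} (d : ℕ) (G : SimpleGraph V) : unitInterval :=
  sInf {p : unitInterval | percMeasure G.edgeSet p (treeEvent d G) = 1}

/-! ### The van den Berg–Kesten inequality for several families -/

section BKn

variable {α : Type*} [DecidableEq α]

/-- disjoint occurrence of `d` families -/
def nbox : (d : ℕ) → (Fin d → Set (Finset α)) → Set (Finset α)
  | 0, _ => Set.univ
  | d + 1, A => box (A 0) (nbox d (fun i => A i.succ))

omit [DecidableEq α] in
theorem nbox_up : ∀ (d : ℕ) (A : Fin d → Set (Finset α)), Up (nbox d A)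
  | 0, _ => fun _ _ _ _ => trivial
  | d + 1, A => by
    rintro S T hST ⟨I, J, h1, h2, h3, h4, h5⟩
    exact ⟨I, J, h1, h2.trans hST, h3.trans hST, h4, h5⟩

theorem bk_nbox {p : ℝ} (h0 : 0 ≤ p) (h1 : p ≤ 1) (Λ : Finset α) : ∀ (d : ℕ)
    (A : Fin d → Set (Finset α)), (∀ i, Up (A i)) → q p Λ (nbox d A) ≤ ∏ i, q p Λ (A i)
  | 0, A, _ => by
    rw [Fin.prod_univ_zero]
    have h := q_mono h0 h1 Λ (Set.subset_univ (nbox 0 A))
    refine h.trans ?_
    clear h
    induction Λ using Finset.induction_on with
    | empty => simp [q, wt]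
    | insert e Λ he ih =>
      rw [q_insert p he]
      have e1 : addE e (Set.univ : Set (Finset α)) = Set.univ := by
        ext S; simp [addE]
      rw [e1]
      linarith
  | d + 1, A, hA => by
    rw [Fin.prod_univ_succ]
    refine (bk h0 h1 Λ _ _ (hA 0) (nbox_up d _)).trans ?_
    exact mul_le_mul_of_nonneg_left (bk_nbox h0 h1 Λ d _ (fun i => hA i.succ))
      (q_nonneg h0 h1 _ _)

theorem nbox_of : ∀ (d : ℕ) (A : Fin d → Set (Finset α)) (I : Fin d → Finset α) (S : Finset α),
    (∀ i j, i ≠ j → Disjoint (I i) (I j)) → (∀ i, I i ⊆ S) → (∀ i, I i ∈ A i) → S ∈ nbox d A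
  | 0, _, _, _, _, _, _ => trivial
  | d + 1, A, I, S, hd, hS, hA => by
    refine ⟨I 0, Finset.univ.biUnion (fun i : Fin d => I i.succ), ?_, hS 0, ?_, hA 0, ?_⟩
    · rw [Finset.disjoint_biUnion_right]
      intro i _
      exact hd 0 i.succ (Fin.succ_ne_zero i).symm
    · rw [Finset.biUnion_subset]
      intro i _
      exact hS i.succ
    · refine nbox_of d _ (fun i => I i.succ) _ (fun i j hij => hd _ _ ?_) (fun i => ?_)
        (fun i => hA i.succ)
      · exact fun h => hij (Fin.succ_injective _ h)
      · exact Finset.subset_biUnion_of_mem (fun i : Fin d => I i.succ) (Finset.mem_univ i)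

/-- monotonicity in `p` -/
theorem q_mono_p {p p' : ℝ} (h0 : 0 ≤ p) (hp : p ≤ p') (h1 : p' ≤ 1) (Λ : Finset α) :
    ∀ A : Set (Finset α), Up A → q p Λ A ≤ q p' Λ A := by
  induction Λ using Finset.induction_on with
  | empty => intro A _; simp [q, wt]
  | insert e Λ he ih =>
    intro A hA
    rw [q_insert p he, q_insert p' he]
    have a1 := ih A hA
    have a2 := ih (addE e A) (hA.addE e)
    have a3 := q_mono (h0.trans hp) h1 Λ (sub_addE hA e)
    have b1 : (1 - p) * q p Λ A ≤ (1 - p) * q p' Λ A :=
      mul_le_mul_of_nonneg_left a1 (by linarith)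
    have b2 : p * q p Λ (addE e A) ≤ p * q p' Λ (addE e A) := mul_le_mul_of_nonneg_left a2 h0
    have b3 : 0 ≤ (p' - p) * (q p' Λ (addE e A) - q p' Λ A) :=
      mul_nonneg (by linarith) (by linarith)
    have e1 : (p' - p) * (q p' Λ (addE e A) - q p' Λ A) =
      ((1 - p') * q p' Λ A + p' * q p' Λ (addE e A)) -
      ((1 - p) * q p' Λ A + p * q p' Λ (addE e A)) := by ring
    rw [e1] at b3
    linarith

end BKn

/-! ### Tree events -/

section TreeSec

variable {V : Type} {d : ℕ}

/-- embedding of the binary tree of depth `n` -/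
def Emb (H : SimpleGraph V) (n : ℕ) (f : List (Fin d) → V) : Prop :=
  (∀ w : List (Fin d), w.length < n → ∀ b : Fin d, H.Adj (f w) (f (b :: w))) ∧
    Set.InjOn f {w | w.length ≤ n}

theorem Emb.mono {H H' : SimpleGraph V} (h : H ≤ H') {n : ℕ} {f : List (Fin d) → V}
    (hf : Emb H n f) : Emb H' n f := ⟨fun w hw b => h (hf.1 w hw b), hf.2⟩

theorem Emb.le {H : SimpleGraph V} {n m : ℕ} (h : m ≤ n) {f : List (Fin d) → V}
    (hf : Emb H n f) : Emb H m f :=
  ⟨fun w hw b => hf.1 w (by omega) b, hf.2.mono (fun w (hw : w.length ≤ m) => by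
    show w.length ≤ n
    omega)⟩

/-- rooted event of depth `n` -/
def Ev (d : ℕ) (G : SimpleGraph V) (n : ℕ) (v : V) : Set (G.edgeSet → Bool) :=
  {ω | ∃ f : List (Fin d) → V, f [] = v ∧ Emb (openGraph G ω) n f}

/-- the corresponding set family -/
def fam (d : ℕ) (G : SimpleGraph V) (n : ℕ) (v : V) : Set (Finset G.edgeSet) :=
  {S | ∃ f : List (Fin d) → V, f [] = v ∧ ∃ hf : Emb G n f, ∀ w b (hw : w.length < n),
    (⟨s(f w, f (b :: w)), hf.1 w hw b⟩ : G.edgeSet) ∈ S}

theorem fam_up (d : ℕ) (G : SimpleGraph V) (n : ℕ) (v : V) : Up (fam d G n v) := by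
  rintro S T hST ⟨f, h1, h2, h3⟩
  exact ⟨f, h1, h2, fun w b hw => hST (h3 w b hw)⟩

/-- `Λ` contains all edges that an embedded tree of depth `n` at `v` may use -/
def Good (d : ℕ) (G : SimpleGraph V) (n : ℕ) (v : V) (Λ : Finset G.edgeSet) : Prop :=
  ∀ f : List (Fin d) → V, f [] = v → ∀ hf : Emb G n f, ∀ w b (hw : w.length < n),
    (⟨s(f w, f (b :: w)), hf.1 w hw b⟩ : G.edgeSet) ∈ Λ

theorem Good.mono {G : SimpleGraph V} {n : ℕ} {v : V} {Λ Λ' : Finset G.edgeSet}
    (h : Good d G n v Λ) (hL : Λ ⊆ Λ') : Good d G n v Λ' :=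
  fun f hf hE w b hw => hL (h f hf hE w b hw)

theorem Ev_eq {G : SimpleGraph V} {n : ℕ} {v : V} {Λ : Finset G.edgeSet} (h : Good d G n v Λ) :
    Ev d G n v = {ω | opn Λ ω ∈ fam d G n v} := by
  ext ω
  constructor
  · rintro ⟨f, h1, h2⟩
    refine ⟨f, h1, h2.mono (openGraph_le G ω), fun w b hw => ?_⟩
    simp only [opn, Finset.mem_filter]
    refine ⟨h f h1 (h2.mono (openGraph_le G ω)) w b hw, ?_⟩
    obtain ⟨_, ho⟩ := h2.1 w hw b
    exact ho
  · rintro ⟨f, h1, h2, h3⟩
    refine ⟨f, h1, fun w hw b => ?_, h2.2⟩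
    have := h3 w b hw
    simp only [opn, Finset.mem_filter] at this
    exact ⟨h2.1 w hw b, this.2⟩
theorem mem_rch (G : SimpleGraph V) [G.LocallyFinite] [DecidableEq V] {v : V} {n : ℕ}
    {f : List (Fin d) → V} (h0 : f [] = v) (hf : Emb G n f) (w : List (Fin d)) (hw : w.length ≤ n) :
    f w ∈ rch G v w.length := by
  induction w with
  | nil => simp [rch, h0]
  | cons b w ih =>
    rw [List.length_cons] at hw ⊢
    rw [rch, Finset.mem_biUnion]
    refine ⟨f w, ih (by omega), Finset.mem_insert_of_mem ?_⟩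
    rw [SimpleGraph.mem_neighborFinset]
    exact hf.1 w (by omega) b

theorem exists_good (d : ℕ) (G : SimpleGraph V) [G.LocallyFinite] (n : ℕ) (v : V) :
    ∃ Λ : Finset G.edgeSet, Good d G n v Λ := by
  classical
  set E0 : Finset (Sym2 V) := (rch G v n).biUnion (fun x => (G.neighborFinset x).image
    (fun y => s(x, y))) with hE0
  have hfin : {e : G.edgeSet | e.1 ∈ E0}.Finite :=
    Set.Finite.preimage (Subtype.val_injective.injOn) (Finset.finite_toSet E0)
  refine ⟨hfin.toFinset, ?_⟩
  intro f h0 hf w b hw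
  rw [Set.Finite.mem_toFinset]
  simp only [Set.mem_ofPred_eq, hE0, Finset.mem_biUnion, Finset.mem_image]
  exact ⟨f w, rch_mono' G v (le_of_lt hw) (mem_rch G h0 hf w hw.le), f (b :: w), by
    rw [SimpleGraph.mem_neighborFinset]; exact hf.1 w hw b, rfl⟩

theorem Ev_meas (d : ℕ) (G : SimpleGraph V) [G.LocallyFinite] (n : ℕ) (v : V) :
    MeasurableSet (Ev d G n v) := by
  classical
  obtain ⟨Λ, h⟩ := exists_good d G n v
  rw [Ev_eq h]; exact cyl_meas _ _


theorem fam_succ (d : ℕ) (G : SimpleGraph V) [G.LocallyFinite] (n : ℕ) (v : V) :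
    fam d G (n + 1) v ⊆ ⋃ x ∈ Fintype.piFinset (fun _ : Fin d => G.neighborFinset v),
      nbox d (fun i => fam d G n (x i)) := by
  classical
  rintro S ⟨f, h0, hf, hS⟩
  simp only [Set.mem_iUnion, Fintype.mem_piFinset, SimpleGraph.mem_neighborFinset]
  have hadj : ∀ b : Fin d, G.Adj v (f [b]) := by
    intro b; have := hf.1 [] (by simp) b; rwa [h0] at this
  -- the subtrees
  have hsub : ∀ c : Fin d, Emb G n (fun w => f (w ++ [c])) := by
    intro c
    refine ⟨fun w hw b => ?_, ?_⟩
    · exact hf.1 (w ++ [c]) (by simp; omega) b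
    · intro w hw w' hw' h
      simp only [Set.mem_ofPred_eq] at hw hw'
      have := hf.2 (by simp; omega) (by simp; omega) h
      exact List.append_cancel_right this
  set sb : Fin d → Finset G.edgeSet := fun c => S.filter (fun e => ∃ w : List (Fin d), ∃ b : Fin d,
    w.length < n ∧ e.1 = s(f (w ++ [c]), f (b :: w ++ [c]))) with hsb
  have hmem : ∀ c, sb c ∈ fam d G n (f [c]) := by
    intro c
    refine ⟨fun w => f (w ++ [c]), rfl, hsub c, fun w b hw => ?_⟩
    simp only [hsb, Finset.mem_filter]
    exact ⟨hS (w ++ [c]) b (by simp; omega), w, b, hw, rfl⟩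
  refine ⟨fun c => f [c], hadj, nbox_of d _ sb S ?_ (fun c => Finset.filter_subset _ _) hmem⟩
  intro c c' hcc
  rw [Finset.disjoint_left]
  intro e he he'
  simp only [hsb, Finset.mem_filter] at he he'
  obtain ⟨-, w, b, hw, he⟩ := he
  obtain ⟨-, w', b', hw', he'⟩ := he'
  rw [he'] at he
  rw [Sym2.eq_iff] at he
  have key : ∀ u u' : List (Fin d), u.length ≤ n → u'.length ≤ n →
      f (u ++ [c']) = f (u' ++ [c]) → False := by
    intro u u' hu hu' h
    have := hf.2 (by simp; omega) (by simp; omega) h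
    have h2 := List.append_inj_right' this (by simp)
    simp only [List.cons.injEq, and_true] at h2
    exact hcc h2.symm
  rcases he with ⟨h1, _⟩ | ⟨h1, _⟩
  · exact key w' w hw'.le hw.le h1
  · exact key w' (b :: w) hw'.le (by simp; omega) h1

theorem Ev_succ_le (d : ℕ) (G : SimpleGraph V) [G.LocallyFinite] (p : unitInterval) (n : ℕ) (v : V)
    (t : ℝ) (ht : ∀ x, G.Adj v x → (percMeasure G.edgeSet p).real (Ev d G n x) ≤ t) :
    (percMeasure G.edgeSet p).real (Ev d G (n + 1) v) ≤ (G.degree v : ℝ) ^ d * t ^ d := by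
  classical
  have h0 := p.2.1
  have h1 := p.2.2
  choose L hL using exists_good d G n
  obtain ⟨Λ0, hΛ0⟩ := exists_good d G (n + 1) v
  set Λ := Λ0 ∪ (G.neighborFinset v).biUnion L with hΛ
  have hg : Good d G (n + 1) v Λ := hΛ0.mono Finset.subset_union_left
  have hgx : ∀ x, G.Adj v x → Good d G n x Λ := by
    intro x hx
    apply (hL x).mono
    refine Finset.Subset.trans ?_ Finset.subset_union_right
    exact Finset.subset_biUnion_of_mem L (by rwa [SimpleGraph.mem_neighborFinset])
  have hqx : ∀ x, G.Adj v x → q p Λ (fam d G n x) ≤ t := by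
    intro x hx
    have := ht x hx
    rw [Ev_eq (hgx x hx), measureReal_def, cyl_prob, ENNReal.toReal_ofReal (q_nonneg h0 h1 _ _)]
      at this
    exact this
  rw [Ev_eq hg, measureReal_def, cyl_prob, ENNReal.toReal_ofReal (q_nonneg h0 h1 _ _)]
  calc q p Λ (fam d G (n + 1) v) ≤ q p Λ (⋃ x ∈ Fintype.piFinset
        (fun _ : Fin d => G.neighborFinset v), nbox d (fun i => fam d G n (x i))) :=
        q_mono h0 h1 _ (fam_succ d G n v)
    _ ≤ ∑ x ∈ Fintype.piFinset (fun _ : Fin d => G.neighborFinset v),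
        q p Λ (nbox d (fun i => fam d G n (x i))) := q_iUnion_le h0 h1 _ _ _
    _ ≤ ∑ x ∈ Fintype.piFinset (fun _ : Fin d => G.neighborFinset v), t ^ d := by
        apply Finset.sum_le_sum
        intro x hx
        simp only [Fintype.mem_piFinset, SimpleGraph.mem_neighborFinset] at hx
        refine (bk_nbox h0 h1 Λ d _ (fun i => fam_up d G n _)).trans ?_
        calc ∏ i, q p Λ (fam d G n (x i)) ≤ ∏ _i : Fin d, t :=
              Finset.prod_le_prod (fun i _ => q_nonneg h0 h1 _ _) (fun i _ => hqx _ (hx i))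
          _ = t ^ d := by rw [Finset.prod_const, Finset.card_univ, Fintype.card_fin]
    _ = (G.degree v : ℝ) ^ d * t ^ d := by
        rw [Finset.sum_const, Fintype.card_piFinset_const, SimpleGraph.card_neighborFinset_eq_degree]
        simp

theorem Ev_mono_p (d : ℕ) (G : SimpleGraph V) [G.LocallyFinite] {p p' : unitInterval}
    (hp : p ≤ p') (n : ℕ) (v : V) :
    (percMeasure G.edgeSet p).real (Ev d G n v) ≤ (percMeasure G.edgeSet p').real (Ev d G n v) := by
  classical
  obtain ⟨Λ, h⟩ := exists_good d G n v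
  rw [Ev_eq h, measureReal_def, cyl_prob, ENNReal.toReal_ofReal (q_nonneg p.2.1 p.2.2 _ _),
    measureReal_def, cyl_prob, ENNReal.toReal_ofReal (q_nonneg p'.2.1 p'.2.2 _ _)]
  exact q_mono_p p.2.1 hp p'.2.2 Λ _ (fam_up d G n v)


/-- rooted infinite event -/
def Einf (d : ℕ) (G : SimpleGraph V) (v : V) : Set (G.edgeSet → Bool) :=
  {ω | ∃ f : List (Fin d) → V, f [] = v ∧ Function.Injective f ∧
    ∀ w b, (openGraph G ω).Adj (f w) (f (b :: w))}

theorem bTree_adj (w : List (Fin d)) (b : Fin d) : (bTree d).Adj w (b :: w) := by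
  unfold bTree
  rw [SimpleGraph.fromRel_adj]
  refine ⟨?_, Or.inl ⟨b, rfl⟩⟩
  intro h
  have := congrArg List.length h
  simp at this

theorem treeEvent_eq (d : ℕ) (G : SimpleGraph V) : treeEvent d G = ⋃ v, Einf d G v := by
  ext ω
  simp only [Set.mem_iUnion]
  constructor
  · rintro ⟨C, ⟨φ⟩⟩
    refine ⟨(φ []).1, fun w => (φ w).1, rfl, ?_, ?_⟩
    · intro a b hab
      exact φ.injective (Subtype.ext hab)
    · intro w b
      have := φ.toHom.map_adj (bTree_adj w b)
      exact this
  · rintro ⟨v, f, h0, hinj, hadj⟩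
    have hreach : ∀ w, (openGraph G ω).Reachable v (f w) := by
      intro w
      induction w with
      | nil => rw [h0]
      | cons b w ih => exact ih.trans (hadj w b).reachable
    refine ⟨(openGraph G ω).connectedComponentMk v, ⟨⟨⟨fun w => ⟨f w, ?_⟩, ?_⟩, ?_⟩⟩⟩
    · change f w ∈ ((openGraph G ω).connectedComponentMk v).supp
      rw [SimpleGraph.ConnectedComponent.mem_supp_iff, SimpleGraph.ConnectedComponent.eq]
      exact (hreach w).symm
    · intro w w' h
      unfold bTree at h
      rw [SimpleGraph.fromRel_adj] at h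
      rcases h.2 with ⟨b, rfl⟩ | ⟨b, rfl⟩
      · exact hadj w b
      · exact (hadj w' b).symm
    · intro a b hab
      exact hinj (congrArg Subtype.val hab)

theorem Ev_anti (d : ℕ) (G : SimpleGraph V) (v : V) {m n : ℕ} (h : m ≤ n) : Ev d G n v ⊆ Ev d G m v := by
  rintro ω ⟨f, h0, hf⟩
  exact ⟨f, h0, hf.le h⟩

/-- compactness -/
theorem Einf_eq (d : ℕ) (G : SimpleGraph V) [G.LocallyFinite] (v : V) : Einf d G v = ⋂ n, Ev d G n v := by
  classical
  ext ω
  simp only [Set.mem_iInter]
  constructor
  · rintro ⟨f, h0, hinj, hadj⟩ n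
    exact ⟨f, h0, fun w _ b => hadj w b, hinj.injOn⟩
  · intro h
    let _ : TopologicalSpace V := ⊥
    have : DiscreteTopology V := ⟨rfl⟩
    set C : ℕ → Set (List (Fin d) → V) := fun n =>
      {f | (∀ w, f w ∈ rch G v w.length) ∧ f [] = v ∧ Emb (openGraph G ω) n f} with hC
    have hcl : ∀ n, IsClosed (C n) := by
      intro n
      have e : C n = (⋂ w, {f | f w ∈ rch G v w.length}) ∩ ({f | f [] = v} ∩
          ((⋂ w : List (Fin d), ⋂ (_ : w.length < n), ⋂ b : Fin d,
            {f | (openGraph G ω).Adj (f w) (f (b :: w))}) ∩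
          (⋂ w : List (Fin d), ⋂ w' : List (Fin d), ⋂ (_ : w.length ≤ n), ⋂ (_ : w'.length ≤ n),
            ⋂ (_ : w ≠ w'), {f : List (Fin d) → V | f w ≠ f w'}))) := by
        ext f
        simp only [hC, Emb, Set.mem_ofPred_eq, Set.mem_inter_iff, Set.mem_iInter, Set.InjOn]
        constructor
        · rintro ⟨h1, h2, h3, h4⟩
          exact ⟨h1, h2, h3, fun w w' hw hw' hne heq => hne (h4 hw hw' heq)⟩
        · rintro ⟨h1, h2, h3, h4⟩
          refine ⟨h1, h2, h3, fun w hw w' hw' heq => ?_⟩
          by_contra hne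
          exact h4 w w' hw hw' hne heq
      rw [e]
      refine (isClosed_iInter fun w => ?_).inter (IsClosed.inter ?_ (IsClosed.inter ?_ ?_))
      · exact IsClosed.preimage (f := fun f : List (Fin d) → V => f w) (continuous_apply w)
          (isClosed_discrete (rch G v w.length : Set V))
      · exact IsClosed.preimage (f := fun f : List (Fin d) → V => f []) (continuous_apply [])
          (isClosed_discrete ({v} : Set V))
      · refine isClosed_iInter fun w => isClosed_iInter fun _ => isClosed_iInter fun b => ?_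
        exact IsClosed.preimage (f := fun f : List (Fin d) → V => (f w, f (b :: w)))
          ((continuous_apply w).prodMk (continuous_apply (b :: w)))
          (isClosed_discrete {x : V × V | (openGraph G ω).Adj x.1 x.2})
      · refine isClosed_iInter fun w => isClosed_iInter fun w' => isClosed_iInter fun _ =>
          isClosed_iInter fun _ => isClosed_iInter fun _ => ?_
        exact IsClosed.preimage (f := fun f : List (Fin d) → V => (f w, f w'))
          ((continuous_apply w).prodMk (continuous_apply w'))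
          (isClosed_discrete {x : V × V | x.1 ≠ x.2})
    have hcomp : IsCompact (C 0) := by
      apply IsCompact.of_isClosed_subset (isCompact_univ_pi
        (s := fun w : List (Fin d) => (rch G v w.length : Set V))
        (fun w => (Finset.finite_toSet _).isCompact)) (hcl 0)
      intro f hf w _
      exact hf.1 w
    have hne : ∀ n, (C n).Nonempty := by
      intro n
      obtain ⟨f, h0, hf⟩ := h n
      refine ⟨fun w => if w.length ≤ n then f w else v, ?_, ?_, ?_, ?_⟩
      · intro w
        by_cases hw : w.length ≤ n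
        · simp only [hw, if_true]
          exact mem_rch G h0 (hf.mono (openGraph_le G ω)) w hw
        · simp only [hw, if_false]
          exact mem_rch_self G v _
      · simp [h0]
      · intro w hw b
        have h1 : w.length ≤ n := hw.le
        have h2 : (b :: w).length ≤ n := by simp; omega
        simp only [h1, h2, if_true]
        exact hf.1 w hw b
      · intro w hw w' hw' heq
        simp only [Set.mem_ofPred_eq] at hw hw'
        simp only [hw, hw', if_true] at heq
        exact hf.2 hw hw' heq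
    have hnest : ∀ n, C (n + 1) ⊆ C n := by
      rintro n f ⟨h1, h2, h3⟩
      exact ⟨h1, h2, h3.le (Nat.le_succ n)⟩
    obtain ⟨f, hf⟩ := IsCompact.nonempty_iInter_of_sequence_nonempty_isCompact_isClosed C hnest
      hne hcomp hcl
    simp only [Set.mem_iInter] at hf
    refine ⟨f, (hf 0).2.1, ?_, ?_⟩
    · intro w w' heq
      exact (hf (max w.length w'.length)).2.2.2
        (show w.length ≤ max w.length w'.length from le_max_left _ _)
        (show w'.length ≤ max w.length w'.length from le_max_right _ _) heq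
    · intro w b
      exact (hf (w.length + 1)).2.2.1 w (Nat.lt_succ_self _) b

theorem Einf_meas (d : ℕ) (G : SimpleGraph V) [G.LocallyFinite] (v : V) : MeasurableSet (Einf d G v) := by
  rw [Einf_eq]; exact MeasurableSet.iInter (fun n => Ev_meas d G n v)

theorem Ev_continuous (d : ℕ) (G : SimpleGraph V) [G.LocallyFinite] (n : ℕ) (v : V) :
    Continuous (fun p : unitInterval => (percMeasure G.edgeSet p).real (Ev d G n v)) := by
  classical
  obtain ⟨Λ, h⟩ := exists_good d G n v
  have e : (fun p : unitInterval => (percMeasure G.edgeSet p).real (Ev d G n v)) =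
      fun p : unitInterval => q (p : ℝ) Λ (fam d G n v) := by
    ext p
    rw [Ev_eq h, measureReal_def, cyl_prob, ENNReal.toReal_ofReal (q_nonneg p.2.1 p.2.2 _ _)]
  rw [e]
  exact (q_continuous Λ (fam d G n v)).comp continuous_subtype_val

/-- lower bound passes to the limit -/
theorem Einf_ge (d : ℕ) (G : SimpleGraph V) [G.LocallyFinite] (v : V) (p : unitInterval) (c : ℝ)
    (h : ∀ n, c ≤ (percMeasure G.edgeSet p).real (Ev d G n v)) : c ≤ (percMeasure G.edgeSet p).real (Einf d G v) := by
  rw [Einf_eq]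
  have ht := tendsto_measure_iInter_atTop (μ := percMeasure G.edgeSet p) (s := fun n => Ev d G n v)
    (fun n => (Ev_meas d G n v).nullMeasurableSet) (fun m n hmn => Ev_anti d G v hmn)
    ⟨0, measure_ne_top _ _⟩
  have ht2 := (ENNReal.tendsto_toReal (measure_ne_top _ _)).comp ht
  exact ge_of_tendsto ht2 (Filter.Eventually.of_forall h)

/-- invariance under automorphisms -/
theorem Ev_aut (d : ℕ) (G : SimpleGraph V) (φ : G ≃g G) (p : unitInterval) (n : ℕ) (v : V) :
    (percMeasure G.edgeSet p).real (Ev d G n (φ v)) = (percMeasure G.edgeSet p).real (Ev d G n v) := by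
  set e : G.edgeSet ≃ G.edgeSet := φ.mapEdgeSet with he
  have hmap : (percMeasure G.edgeSet p).map (MeasurableEquiv.piCongrLeft (fun _ : G.edgeSet => Bool) e) =
      percMeasure G.edgeSet p := by
    unfold percMeasure
    exact Measure.infinitePi_map_piCongrLeft (μ := fun _ : G.edgeSet => bernoulliMeasure true false p) e
  have hset : (MeasurableEquiv.piCongrLeft (fun _ : G.edgeSet => Bool) e) ⁻¹' (Ev d G n (φ v)) =
      Ev d G n v := by
    have hval : ∀ (ω : G.edgeSet → Bool) (u w : V) (h : G.Adj u w),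
        (MeasurableEquiv.piCongrLeft (fun _ : G.edgeSet => Bool) e) ω
          ⟨s(φ u, φ w), φ.map_adj_iff.2 h⟩ = ω ⟨s(u, w), h⟩ := by
      intro ω u w h
      have : (⟨s(φ u, φ w), φ.map_adj_iff.2 h⟩ : G.edgeSet) = e ⟨s(u, w), h⟩ := by
        apply Subtype.ext
        simp [he]
      rw [this]
      exact Equiv.piCongrLeft_apply_apply (P := fun _ : G.edgeSet => Bool) e ω _
    ext ω
    simp only [Set.mem_preimage]
    constructor
    · rintro ⟨f, h0, hf1, hf2⟩
      refine ⟨fun w => φ.symm (f w), by simp [h0], ?_, ?_⟩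
      · intro w hw b
        obtain ⟨h1, h2⟩ := hf1 w hw b
        have h3 : G.Adj (φ.symm (f w)) (φ.symm (f (b :: w))) := φ.symm.map_adj_iff.2 h1
        refine ⟨h3, ?_⟩
        rw [← hval ω _ _ h3, ← h2]
        exact congrArg _ (Subtype.ext (by simp))
      · intro w hw w' hw' heq
        exact hf2 hw hw' (φ.symm.injective heq)
    · rintro ⟨f, h0, hf1, hf2⟩
      refine ⟨fun w => φ (f w), by simp [h0], ?_, ?_⟩
      · intro w hw b
        obtain ⟨h1, h2⟩ := hf1 w hw b
        refine ⟨φ.map_adj_iff.2 h1, ?_⟩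
        rw [← h2]
        exact hval ω _ _ h1
      · intro w hw w' hw' heq
        exact hf2 hw hw' (φ.injective heq)
  rw [measureReal_def, measureReal_def]
  congr 1
  conv_lhs => rw [← hmap]
  rw [MeasurableEquiv.map_apply, hset]

end TreeSec

end Pool.Agent.Y750.BT
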