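import Pool.Agent.Y750.BT.Main

/-!
# Full `d`-ary trees in the `k`-regular planar triangulation, `2 ≤ d ≤ k - 5`
-/

set_option autoImplicit false

open MeasureTheory ProbabilityTheory Finset

namespace Pool.Agent.Y750.BT

open Pool.Agent.Results.MP_950aae_pr.FirstOrder

section

variable {k d : ℕ}

/-- codes of the vertices of a `d`-ary tree in the layered triangulation -/
def fcd : List (Fin d) → List ℕ
  | [] => [0]
  | b :: w => b.val :: fcd w

theorem fcd_ne (w : List (Fin d)) : fcd w ≠ [] := by cases w <;> simp [fcd]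

theorem mm_ge' (hk : 7 ≤ k) {l : List ℕ} (hl : l ≠ []) : k - 5 ≤ Lay.mm k l := by
  rcases Lay.mm_cases (k := k) hl with h | h <;> omega

theorem fcd_val (hk : 7 ≤ k) (hd : d ≤ k - 5) (w : List (Fin d)) : Lay.Val k (fcd w) := by
  induction w with
  | nil => exact ⟨by simp only [Lay.mm]; omega, trivial⟩
  | cons b w ih =>
    refine ⟨?_, ih⟩
    have := mm_ge' hk (fcd_ne w)
    have := b.2
    omega

theorem fcd_inj : Function.Injective (fcd (d := d)) := by
  intro w
  induction w with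
  | nil =>
    intro w' h
    cases w' with
    | nil => rfl
    | cons b w' =>
      simp only [fcd, List.cons.injEq] at h
      exact absurd h.2.symm (fcd_ne w')
  | cons b w ih =>
    intro w' h
    cases w' with
    | nil =>
      simp only [fcd, List.cons.injEq] at h
      exact absurd h.2 (fcd_ne w)
    | cons b' w' =>
      simp only [fcd, List.cons.injEq] at h
      rw [ih h.2, Fin.ext h.1]

/-- group elements leading to the vertices of the tree -/
def ggd (k : ℕ) : List (Fin d) → Dyck k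
  | [] => 1
  | b :: w => ggd k w * sg k ^ (Lay.mm k (fcd w) + 2 - b.val) * ta k

theorem Dm_ggd (hk : 7 ≤ k) (hd : d ≤ k - 5) (w : List (Fin d)) :
    Dm hk ⟨([0], 0), ⟨fcd_val hk hd [], by show 0 < k; omega⟩⟩ (ggd k w) =
      ⟨(fcd w, 0), ⟨fcd_val hk hd w, by show 0 < k; omega⟩⟩ := by
  induction w with
  | nil => rw [ggd, Dm_one]; rfl
  | cons b w ih =>
    rw [ggd, Dm_ta, Dm_sg_pow, ih]
    apply Subtype.ext
    show Lay.T k (((Rp hk) ^ _) _).1 = _
    rw [Rp_pow_apply]
    have h1 := mm_ge' hk (fcd_ne w)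
    have h2 := Lay.mm_le hk (fcd_ne w)
    have hb := b.2
    rw [Nat.zero_add, Nat.mod_eq_of_lt (by omega), Lay.T_C (fcd_ne w) (by omega) (by omega)]
    simp only [fcd]
    congr 2
    omega

theorem ggd_inj (hk : 7 ≤ k) (hd : d ≤ k - 5) : Function.Injective
    (fun w : List (Fin d) => (QuotientGroup.mk (ggd k w) : Dyck k ⧸ Subgroup.zpowers (sg k))) := by
  intro w w' h
  have := Dm_vertex hk ⟨([0], 0), ⟨fcd_val hk hd [], by show 0 < k; omega⟩⟩ h
  rw [Dm_ggd hk hd, Dm_ggd hk hd] at this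
  exact fcd_inj this

theorem ggd_adj (hk : 7 ≤ k) (hd : d ≤ k - 5) (w : List (Fin d)) (b : Fin d) :
    (H k).Adj (QuotientGroup.mk (ggd k w)) (QuotientGroup.mk (ggd k (b :: w))) := by
  rw [H, SimpleGraph.fromRel_adj]
  refine ⟨?_, Or.inl ⟨ggd k w * sg k ^ (Lay.mm k (fcd w) + 2 - b.val), ?_, rfl⟩⟩
  · intro h
    have := ggd_inj hk hd h
    have := congrArg List.length this
    simp at this
  · rw [mk_eq_iff]
    exact ⟨_, by rw [zpow_natCast]⟩

/-- `H k` contains the full `d`-ary tree for `d ≤ k - 5` -/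
theorem contained (hk : 7 ≤ k) (hd : d ≤ k - 5) : (bTree d).IsContained (H k) := by
  refine ⟨⟨⟨fun w => QuotientGroup.mk (ggd k w), ?_⟩, ggd_inj hk hd⟩⟩
  intro w w' h
  unfold bTree at h
  rw [SimpleGraph.fromRel_adj] at h
  rcases h.2 with ⟨b, rfl⟩ | ⟨b, rfl⟩
  · exact ggd_adj hk hd w b
  · exact (ggd_adj hk hd w' b).symm

end

end Pool.Agent.Y750.BT
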