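import Pool.Agent.Y750.BT.Core

/-!
# Embedded full `d`-ary trees: the sharp discontinuous transition on quasi-transitive graphs
-/

set_option autoImplicit false

open MeasureTheory ProbabilityTheory Finset

namespace Pool.Agent.Y750.BT

open Pool.Agent.Results.MP_950aae_pr.FirstOrder

/-! ### Zero-one law -/

/-- Kolmogorov's zero-one law for events insensitive to finitely many coordinates -/
theorem zero_one {ι : Type} (p : unitInterval) (E : Set (ι → Bool)) (hE : MeasurableSet E)
    (htail : ∀ (Λ : Finset ι) (ω ω' : ι → Bool), (∀ e, e ∉ Λ → ω e = ω' e) → ω ∈ E → ω' ∈ E) :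
    percMeasure ι p E = 0 ∨ percMeasure ι p E = 1 := by
  classical
  set s : ι → MeasurableSpace (ι → Bool) :=
    fun i => MeasurableSpace.comap (fun ω : ι → Bool => ω i) ⊤ with hs
  have h_le : ∀ i, s i ≤ (inferInstance : MeasurableSpace (ι → Bool)) := by
    intro i
    exact (measurable_pi_apply i).comap_le
  have h_ind : iIndep s (percMeasure ι p) :=
    iIndepFun_infinitePi (P := fun _ : ι => bernoulliMeasure true false p)
      (X := fun (_ : ι) (ω : Bool) => ω) (fun _ => measurable_id)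
  refine measure_zero_or_one_of_measurableSet_limsup (s := s) h_le h_ind (f := Filter.cofinite)
    (p := Set.Finite) (ns := fun t : Finset ι => (t : Set ι)) ?_ ?_ ?_ ?_ ?_
  · intro t ht
    simpa using! ht
  · exact fun a b => ⟨a ∪ b, by simp, by simp⟩
  · exact fun a => a.finite_toSet
  · exact fun n => ⟨{n}, by simp⟩
  · rw [Filter.hasBasis_cofinite.limsup_eq_iInf_iSup]
    rw [MeasurableSpace.measurableSet_iInf]
    intro t
    rw [MeasurableSpace.measurableSet_iInf]
    intro ht
    set r : (ι → Bool) → (ι → Bool) := fun ω i => if i ∈ t then false else ω i with hr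
    have hrm : @Measurable _ _ (⨆ a ∈ tᶜ, s a) _ r := by
      refine @measurable_pi_lambda _ _ _ (⨆ a ∈ tᶜ, s a) _ _ (fun i => ?_)
      by_cases hi : i ∈ t
      · have : (fun ω : ι → Bool => r ω i) = fun _ => false := by
          funext ω; simp [hr, hi]
        rw [this]
        exact @measurable_const _ _ _ (⨆ a ∈ tᶜ, s a) _
      · have : (fun ω : ι → Bool => r ω i) = fun ω => ω i := by
          funext ω; simp [hr, hi]
        rw [this]
        have h1 : s i ≤ ⨆ a ∈ tᶜ, s a := le_iSup₂_of_le i hi le_rfl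
        have h2 : @Measurable _ _ (s i) _ (fun ω : ι → Bool => ω i) := comap_measurable _
        exact h2.mono h1 le_rfl
    have hEr : E = r ⁻¹' E := by
      ext ω
      constructor
      · intro h
        refine htail ht.toFinset ω _ (fun e he => ?_) h
        rw [Set.Finite.mem_toFinset] at he
        simp [hr, he]
      · intro h
        refine htail ht.toFinset (r ω) _ (fun e he => ?_) h
        rw [Set.Finite.mem_toFinset] at he
        simp [hr, he]
    rw [hEr]
    exact hrm hE

section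

variable {V : Type}

theorem edge_finite (z : Sym2 V) : {x | x ∈ z}.Finite := by
  induction z using Sym2.ind with
  | _ a b =>
    refine ((Set.finite_singleton b).insert a).subset ?_
    intro x hx
    simpa using! hx

/-- the tree event does not depend on finitely many edges -/
theorem tail (d : ℕ) (hd : 1 ≤ d) (G : SimpleGraph V) (Λ : Finset G.edgeSet)
    (ω ω' : G.edgeSet → Bool) (h : ∀ e, e ∉ Λ → ω e = ω' e) (hω : ω ∈ treeEvent d G) :
    ω' ∈ treeEvent d G := by
  classical
  rw [treeEvent_eq, Set.mem_iUnion] at hω ⊢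
  obtain ⟨v, f, -, hinj, hadj⟩ := hω
  set X : Set V := ⋃ e ∈ Λ, {x | x ∈ (e : G.edgeSet).1} with hX
  have hXf : X.Finite := Set.Finite.biUnion (Finset.finite_toSet Λ) (fun e _ => edge_finite _)
  have hB : (f ⁻¹' X).Finite := hXf.preimage hinj.injOn
  obtain ⟨N, hN⟩ : ∃ N, ∀ w ∈ f ⁻¹' X, List.length w ≤ N := by
    obtain ⟨N, hN⟩ := (hB.image List.length).bddAbove
    exact ⟨N, fun w hw => hN ⟨w, hw, rfl⟩⟩
  set u : List (Fin d) := List.replicate (N + 1) ⟨0, hd⟩ with hu
  have hul : u.length = N + 1 := by simp [hu]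
  refine ⟨f u, fun w => f (w ++ u), by simp, ?_, ?_⟩
  · intro w w' hw
    exact List.append_cancel_right (hinj hw)
  · intro w b
    obtain ⟨h1, h2⟩ := hadj (w ++ u) b
    refine ⟨h1, ?_⟩
    rw [← h2]
    refine (h _ ?_).symm
    intro hmem
    have hx : f (w ++ u) ∈ X := by
      rw [hX, Set.mem_iUnion₂]
      exact ⟨_, hmem, by simp⟩
    have := hN _ hx
    simp only [List.length_append, hul] at this
    omega

theorem treeEvent_meas (d : ℕ) (G : SimpleGraph V) [Countable V] [G.LocallyFinite] :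
    MeasurableSet (treeEvent d G) := by
  rw [treeEvent_eq]
  exact MeasurableSet.iUnion (fun v => Einf_meas d G v)

theorem tree_zero_one (d : ℕ) (hd : 1 ≤ d) (G : SimpleGraph V) [Countable V] [G.LocallyFinite]
    (p : unitInterval) :
    percMeasure G.edgeSet p (treeEvent d G) = 0 ∨ percMeasure G.edgeSet p (treeEvent d G) = 1 :=
  zero_one p _ (treeEvent_meas d G) (tail d hd G)

/-- doubly exponential decay below the threshold -/
theorem decay (d : ℕ) (hd : 1 ≤ d) (G : SimpleGraph V) [G.LocallyFinite] (k : ℕ)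
    (hk : ∀ v, G.degree v ≤ k) (p : unitInterval) (n : ℕ) (t : ℝ) (ht0 : 0 ≤ t)
    (ht : ∀ v, (percMeasure G.edgeSet p).real (Ev d G n v) ≤ t)
    (hρ : (k : ℝ) ^ d * t ^ (d - 1) < 1) (v : V) :
    (percMeasure G.edgeSet p).real (Einf d G v) = 0 := by
  set ρ : ℝ := (k : ℝ) ^ d * t ^ (d - 1) with hρd
  have hρ0 : 0 ≤ ρ := by positivity
  have key : ∀ j v, (percMeasure G.edgeSet p).real (Ev d G (n + j) v) ≤ t * ρ ^ j := by
    intro j
    induction j with
    | zero => intro v; simpa using! ht v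
    | succ j ih =>
      intro v
      have a1 := Ev_succ_le d G p (n + j) v (t * ρ ^ j) (fun x _ => ih x)
      have a2 : (G.degree v : ℝ) ^ d ≤ (k : ℝ) ^ d := by
        have := hk v
        gcongr
      have a3 : 0 ≤ (t * ρ ^ j) ^ d := by positivity
      have a4 : (ρ ^ j) ^ d ≤ ρ ^ j := by
        have h1 : ρ ^ j ≤ 1 := pow_le_one₀ hρ0 hρ.le
        have h2 : 0 ≤ ρ ^ j := by positivity
        calc (ρ ^ j) ^ d ≤ (ρ ^ j) ^ 1 := pow_le_pow_of_le_one h2 h1 hd
          _ = ρ ^ j := pow_one _
      have a5 : (k : ℝ) ^ d * t ^ d = t * ρ := by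
        rw [hρd]
        obtain ⟨m, rfl⟩ : ∃ m, d = m + 1 := ⟨d - 1, by omega⟩
        simp only [Nat.add_sub_cancel]
        ring
      calc (percMeasure G.edgeSet p).real (Ev d G (n + (j + 1)) v)
          ≤ (G.degree v : ℝ) ^ d * (t * ρ ^ j) ^ d := a1
        _ ≤ (k : ℝ) ^ d * (t * ρ ^ j) ^ d := mul_le_mul_of_nonneg_right a2 a3
        _ = ((k : ℝ) ^ d * t ^ d) * (ρ ^ j) ^ d := by rw [mul_pow]; ring
        _ = (t * ρ) * (ρ ^ j) ^ d := by rw [a5]
        _ ≤ (t * ρ) * ρ ^ j := mul_le_mul_of_nonneg_left a4 (by positivity)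
        _ = t * ρ ^ (j + 1) := by ring
  have hlim : Filter.Tendsto (fun j => t * ρ ^ j) Filter.atTop (nhds (t * 0)) :=
    (tendsto_pow_atTop_nhds_zero_of_lt_one hρ0 hρ).const_mul _
  rw [mul_zero] at hlim
  have h1 : (percMeasure G.edgeSet p).real (Einf d G v) ≤ 0 := by
    refine ge_of_tendsto' hlim (fun j => ?_)
    refine le_trans (measureReal_mono ?_ (measure_ne_top _ _)) (key j v)
    rw [Einf_eq]
    exact Set.iInter_subset _ (n + j)
  exact le_antisymm h1 measureReal_nonneg

/-- the gap property at every depth -/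
theorem gap (d : ℕ) (hd : 1 ≤ d) (G : SimpleGraph V) [Countable V] [G.LocallyFinite] (k : ℕ)
    (hk : ∀ v, G.degree v ≤ k) (S : Finset V) (hS : ∀ v, ∃ s ∈ S, ∃ φ : G ≃g G, φ s = v)
    (p : unitInterval) (hp : percMeasure G.edgeSet p (treeEvent d G) ≠ 0) (n : ℕ) :
    ∃ s ∈ S, 1 ≤ (k : ℝ) ^ d * (percMeasure G.edgeSet p).real (Ev d G n s) ^ (d - 1) := by
  by_contra hcon
  push Not at hcon
  apply hp
  rw [treeEvent_eq]
  apply measure_iUnion_null
  intro v
  obtain ⟨s1, hs1, -⟩ := hS v
  obtain ⟨s0, hs0, hmax⟩ := Finset.exists_max_image S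
    (fun s => (percMeasure G.edgeSet p).real (Ev d G n s)) ⟨s1, hs1⟩
  have h := decay d hd G k hk p n _ measureReal_nonneg (fun v => ?_) (hcon s0 hs0) v
  · rw [measureReal_def, ENNReal.toReal_eq_zero_iff] at h
    exact h.resolve_right (measure_ne_top _ _)
  · obtain ⟨s, hs, φ, hφ⟩ := hS v
    rw [← hφ, Ev_aut]
    exact hmax s hs

theorem gap_closed (d : ℕ) (G : SimpleGraph V) [G.LocallyFinite] (k : ℕ) (S : Finset V) (n : ℕ) :
    IsClosed {p : unitInterval | ∃ s ∈ S,
      1 ≤ (k : ℝ) ^ d * (percMeasure G.edgeSet p).real (Ev d G n s) ^ (d - 1)} := by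
  have e : {p : unitInterval | ∃ s ∈ S,
      1 ≤ (k : ℝ) ^ d * (percMeasure G.edgeSet p).real (Ev d G n s) ^ (d - 1)} =
      ⋃ s ∈ S, {p : unitInterval |
      1 ≤ (k : ℝ) ^ d * (percMeasure G.edgeSet p).real (Ev d G n s) ^ (d - 1)} := by
    ext p; simp
  rw [e]
  refine Set.Finite.isClosed_biUnion (Finset.finite_toSet S) (fun s _ => ?_)
  exact isClosed_le continuous_const
    (continuous_const.mul ((Ev_continuous d G n s).pow _))

/-- from all depths to infinite depth -/
theorem gap_inf (d : ℕ) (G : SimpleGraph V) [G.LocallyFinite] (k : ℕ) (S : Finset V)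
    (p : unitInterval)
    (h : ∀ n, ∃ s ∈ S, 1 ≤ (k : ℝ) ^ d * (percMeasure G.edgeSet p).real (Ev d G n s) ^ (d - 1)) :
    ∃ s ∈ S, 1 ≤ (k : ℝ) ^ d * (percMeasure G.edgeSet p).real (Einf d G s) ^ (d - 1) := by
  classical
  have h1 : ∃ s ∈ S, ∀ n,
      1 ≤ (k : ℝ) ^ d * (percMeasure G.edgeSet p).real (Ev d G n s) ^ (d - 1) := by
    by_contra hcon
    push Not at hcon
    choose! N hN using hcon
    obtain ⟨s, hs, h2⟩ := h (S.sup N)
    have h3 := hN s hs
    have h4 : (percMeasure G.edgeSet p).real (Ev d G (S.sup N) s) ≤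
        (percMeasure G.edgeSet p).real (Ev d G (N s) s) :=
      measureReal_mono (Ev_anti d G s (Finset.le_sup hs)) (measure_ne_top _ _)
    have h5 : (k : ℝ) ^ d * (percMeasure G.edgeSet p).real (Ev d G (S.sup N) s) ^ (d - 1) ≤
        (k : ℝ) ^ d * (percMeasure G.edgeSet p).real (Ev d G (N s) s) ^ (d - 1) := by
      have : (0 : ℝ) ≤ (percMeasure G.edgeSet p).real (Ev d G (S.sup N) s) := measureReal_nonneg
      gcongr
    linarith
  obtain ⟨s, hs, h2⟩ := h1
  refine ⟨s, hs, ?_⟩
  have ht := tendsto_measure_iInter_atTop (μ := percMeasure G.edgeSet p)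
    (s := fun n => Ev d G n s)
    (fun n => (Ev_meas d G n s).nullMeasurableSet) (fun m n hmn => Ev_anti d G s hmn)
    ⟨0, measure_ne_top _ _⟩
  rw [← Einf_eq] at ht
  have ht2 := (ENNReal.tendsto_toReal (measure_ne_top _ _)).comp ht
  have ht3 := (ht2.pow (d - 1)).const_mul ((k : ℝ) ^ d)
  exact ge_of_tendsto ht3 (Filter.Eventually.of_forall h2)

/-- invariance of the rooted event under automorphisms -/
theorem Einf_aut (d : ℕ) (G : SimpleGraph V) [G.LocallyFinite] (φ : G ≃g G) (p : unitInterval)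
    (v : V) : (percMeasure G.edgeSet p).real (Einf d G (φ v)) =
      (percMeasure G.edgeSet p).real (Einf d G v) := by
  have h : ∀ u : V, Filter.Tendsto (fun n => (percMeasure G.edgeSet p).real (Ev d G n u))
      Filter.atTop (nhds ((percMeasure G.edgeSet p).real (Einf d G u))) := by
    intro u
    have ht := tendsto_measure_iInter_atTop (μ := percMeasure G.edgeSet p)
      (s := fun n => Ev d G n u)
      (fun n => (Ev_meas d G n u).nullMeasurableSet) (fun m n hmn => Ev_anti d G u hmn)
      ⟨0, measure_ne_top _ _⟩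
    rw [← Einf_eq] at ht
    exact (ENNReal.tendsto_toReal (measure_ne_top _ _)).comp ht
  refine tendsto_nhds_unique (h (φ v)) ?_
  simpa only [Ev_aut] using h v

theorem nonempty_one (d : ℕ) (G : SimpleGraph V) [Countable V] [G.LocallyFinite]
    (hT : (bTree d).IsContained G) :
    {p : unitInterval | percMeasure G.edgeSet p (treeEvent d G) = 1}.Nonempty := by
  obtain ⟨φ⟩ := hT
  refine ⟨1, ?_⟩
  show percMeasure G.edgeSet 1 (treeEvent d G) = 1
  rw [percMeasure_one, Measure.dirac_apply' _ (treeEvent_meas d G), Set.indicator_of_mem]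
  · rfl
  · rw [treeEvent_eq, Set.mem_iUnion]
    exact ⟨φ [], fun w => φ w, rfl, φ.injective, fun w b => ⟨φ.toHom.map_adj (bTree_adj w b), rfl⟩⟩

/-- **Main theorem**, with a given set of representatives of the orbits -/
theorem main (d : ℕ) (hd : 2 ≤ d) (G : SimpleGraph V) [Countable V] [G.LocallyFinite] (k : ℕ)
    (hk : ∀ v, G.degree v ≤ k) (S : Finset V) (hS : ∀ v, ∃ s ∈ S, ∃ φ : G ≃g G, φ s = v)
    (hT : (bTree d).IsContained G) (p : unitInterval) :
    (p < pcrit d G → percMeasure G.edgeSet p (treeEvent d G) = 0) ∧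
    (pcrit d G ≤ p → percMeasure G.edgeSet p (treeEvent d G) = 1 ∧
      ∃ s ∈ S, 1 ≤ (k : ℝ) ^ d * (percMeasure G.edgeSet p).real (Einf d G s) ^ (d - 1)) := by
  have hd1 : 1 ≤ d := by omega
  constructor
  · intro hp
    refine (tree_zero_one d hd1 G p).resolve_right (fun h => ?_)
    exact absurd (csInf_le (OrderBot.bddBelow _)
      (show p ∈ {p : unitInterval | percMeasure G.edgeSet p (treeEvent d G) = 1} from h))
      (not_le.2 hp)
  · intro hp
    have h1 : ∀ n, ∃ s ∈ S,
        1 ≤ (k : ℝ) ^ d * (percMeasure G.edgeSet p).real (Ev d G n s) ^ (d - 1) := by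
      intro n
      have hsub : {p : unitInterval | percMeasure G.edgeSet p (treeEvent d G) = 1} ⊆
          {p : unitInterval | ∃ s ∈ S,
            1 ≤ (k : ℝ) ^ d * (percMeasure G.edgeSet p).real (Ev d G n s) ^ (d - 1)} := by
        intro p hp
        apply gap d hd1 G k hk S hS p
        simp only [Set.mem_ofPred_eq] at hp
        rw [hp]; exact one_ne_zero
      have hmem : pcrit d G ∈
          closure {p : unitInterval | percMeasure G.edgeSet p (treeEvent d G) = 1} :=
        csInf_mem_closure (nonempty_one d G hT) (OrderBot.bddBelow _)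
      obtain ⟨s, hs, h2⟩ := closure_minimal hsub (gap_closed d G k S n) hmem
      refine ⟨s, hs, h2.trans ?_⟩
      have h3 := Ev_mono_p d G hp n s
      have : (0 : ℝ) ≤ (percMeasure G.edgeSet (pcrit d G)).real (Ev d G n s) := measureReal_nonneg
      gcongr
    obtain ⟨s, hs, h2⟩ := gap_inf d G k S p h1
    refine ⟨(tree_zero_one d hd1 G p).resolve_left (fun h0 => ?_), s, hs, h2⟩
    have h3 : percMeasure G.edgeSet p (Einf d G s) = 0 := by
      refine measure_mono_null ?_ h0
      rw [treeEvent_eq]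
      exact Set.subset_iUnion (fun v => Einf d G v) s
    rw [measureReal_def, h3, ENNReal.toReal_zero, zero_pow (by omega), mul_zero] at h2
    linarith

end

end Pool.Agent.Y750.BT
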